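import Pool.Agent.X183.HM.Pos

/-!
# The Gauss-Bonnet-Chern integrand in dimension six under curvature bounds relative to any metric

Let `R` be an algebraic curvature tensor in dimension six and let `h` be any inner product on the
same space (at the points of a Riemannian manifold: any metric besides the given one). If, relative
to `h`, the sectional curvatures of `R` lie in `[0, c]` and the scalar curvature is at least `20 c`,
or the sectional curvatures are at least `c` and the Ricci curvatures are at most `14 c` (for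
curvature `c` they are `5 c`), then the Gauss-Bonnet-Chern integrand is nonnegative, with a lower
bound in terms of the scalar curvature relative to `h`. The inner product `h`, the number `c` and the
choice between the two conditions may depend on the point.

The bounds for `h` equal to the given inner product are the starting results `SharpMeanDimSix` and
`RicciPinchedDimSix`; the transformation rule is in `Pool/Agent/X179/EP/`.
-/

set_option autoImplicit false

namespace Pool.Agent.Results.MP_4a593f_gt.AnyMetricDimSix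

open MeasureTheory Pool.Agent.X183.HM
open Pool.Agent.W666.GB (AlgCurv gbc roundGB CurvField)
open Pool.Agent.X179.EP (IsMetric Ortho det_pos)

/-- `h` is an inner product, `b` is a basis orthonormal for `h`, `c ≥ 0`, and the sectional curvatures
of `R` relative to `h` lie in `[0, c]`. -/
def CurvIn {V : Type} [NormedAddCommGroup V] [InnerProductSpace ℝ V] (R : V → V → V → V → ℝ)
    (h : LinearMap.BilinForm ℝ V) (b : Fin 3 × Bool → V) (c : ℝ) : Prop :=
  IsMetric h ∧ Ortho h b ∧ 0 ≤ c ∧
    ∀ x y : V, h x x = 1 → h y y = 1 → h x y = 0 → 0 ≤ R x y x y ∧ R x y x y ≤ c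

/-- `h` is an inner product, `b` is a basis orthonormal for `h`, `c ≥ 0`, and relative to `h` the
sectional curvatures of `R` are at least `c` and the Ricci curvatures are at most `14 c`. -/
def CurvGe {V : Type} [NormedAddCommGroup V] [InnerProductSpace ℝ V] (R : V → V → V → V → ℝ)
    (h : LinearMap.BilinForm ℝ V) (b : Fin 3 × Bool → V) (c : ℝ) : Prop :=
  IsMetric h ∧ Ortho h b ∧ 0 ≤ c ∧
    (∀ x y : V, h x x = 1 → h y y = 1 → h x y = 0 → c ≤ R x y x y) ∧
    ∀ x : V, h x x = 1 → ricB R b x ≤ 14 * c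

/-- The Gram determinant of the orthonormal basis `e` for `h`: the square of the ratio of the volume
elements of `h` and of the given inner product. -/
noncomputable def gram {V : Type} [NormedAddCommGroup V] [InnerProductSpace ℝ V]
    (e : OrthonormalBasis (Fin 3 × Bool) ℝ V) (h : LinearMap.BilinForm ℝ V) : ℝ :=
  Matrix.det fun i j => h (e i) (e j)

/-- The bound under either condition. -/
def Bound : Prop :=
  ∀ (V : Type) [NormedAddCommGroup V] [InnerProductSpace ℝ V]
    (e : OrthonormalBasis (Fin 3 × Bool) ℝ V) (R : V → V → V → V → ℝ)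
    (h : LinearMap.BilinForm ℝ V) (b : Fin 3 × Bool → V) (c : ℝ), AlgCurv R →
    (CurvIn R h b c ∨ CurvGe R h b c) →
      0 < gram e h ∧
      gram e h * (roundGB 3 1 * (c ^ 2 * (scalB R b / 10 - 2 * c))) ≤ gbc e R ∧
      (CurvGe R h b c → gram e h * (roundGB 3 1 * c ^ 3) ≤ gbc e R)

/-- The condition for the sign. -/
def Good {V : Type} [NormedAddCommGroup V] [InnerProductSpace ℝ V] (R : V → V → V → V → ℝ)
    (h : LinearMap.BilinForm ℝ V) (b : Fin 3 × Bool → V) (c : ℝ) : Prop :=
  (CurvIn R h b c ∧ 20 * c ≤ scalB R b) ∨ CurvGe R h b c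

/-- The condition for the strict sign. -/
def Strict {V : Type} [NormedAddCommGroup V] [InnerProductSpace ℝ V] (R : V → V → V → V → ℝ)
    (h : LinearMap.BilinForm ℝ V) (b : Fin 3 × Bool → V) (c : ℝ) : Prop :=
  0 < c ∧ ((CurvIn R h b c ∧ 20 * c < scalB R b) ∨ CurvGe R h b c)

/-- The sign of the integrand. -/
def Sign : Prop :=
  ∀ (V : Type) [NormedAddCommGroup V] [InnerProductSpace ℝ V]
    (e : OrthonormalBasis (Fin 3 × Bool) ℝ V) (R : V → V → V → V → ℝ)
    (h : LinearMap.BilinForm ℝ V) (b : Fin 3 × Bool → V) (c : ℝ), AlgCurv R →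
      (Good R h b c → 0 ≤ gbc e R) ∧ (Strict R h b c → 0 < gbc e R)

/-- If `h` is an Einstein metric of `R`, normalised by `Ric = 5 h`, and the sectional curvatures
relative to `h` are at least `5 / 14`, then the integrand is at least `100 / 343` times its value for
curvature one, times the Gram determinant. -/
def EinsteinCase : Prop :=
  ∀ (V : Type) [NormedAddCommGroup V] [InnerProductSpace ℝ V]
    (e : OrthonormalBasis (Fin 3 × Bool) ℝ V) (R : V → V → V → V → ℝ)
    (h : LinearMap.BilinForm ℝ V) (b : Fin 3 × Bool → V), AlgCurv R → IsMetric h → Ortho h b →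
    (∀ v w : V, ∑ i, R (b i) v (b i) w = 5 * h v w) →
    (∀ x y : V, h x x = 1 → h y y = 1 → h x y = 0 → 5 / 14 ≤ R x y x y) →
      0 < gram e h ∧ 100 / 343 * (gram e h * roundGB 3 1) ≤ gbc e R

/-- The integrated bound, for fields of tensors, inner products and numbers `c`; the integral of
`K.gb` is the Euler characteristic, for the curvature tensor of a closed Riemannian six-manifold. -/
def FieldBound : Prop :=
  ∀ (M : Type) [MeasurableSpace M] (μ : Measure M) (K : CurvField 3 M)
    (h : ∀ p, LinearMap.BilinForm ℝ (K.V p)) (b : ∀ p, Fin 3 × Bool → K.V p) (c : M → ℝ),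
    (∀ p, CurvIn (K.R p) (h p) (b p) (c p) ∨ CurvGe (K.R p) (h p) (b p) (c p)) →
    Integrable K.gb μ →
    Integrable (fun p => gram (K.e p) (h p) *
      (c p ^ 2 * (scalB (K.R p) (b p) / 10 - 2 * c p))) μ →
      roundGB 3 1 * ∫ p, gram (K.e p) (h p) *
        (c p ^ 2 * (scalB (K.R p) (b p) / 10 - 2 * c p)) ∂μ ≤ ∫ p, K.gb p ∂μ

/-- The sign of the integral. -/
def FieldSign : Prop :=
  ∀ (M : Type) [MeasurableSpace M] (μ : Measure M) (K : CurvField 3 M), Integrable K.gb μ →
    (∀ p, ∃ h b c, Good (K.R p) h b c) →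
      0 ≤ ∫ p, K.gb p ∂μ ∧
      (μ {p | ∃ h b c, Strict (K.R p) h b c} ≠ 0 → 0 < ∫ p, K.gb p ∂μ)

theorem bound : Bound := by
  intro V _ _ e R h b c hR hc
  rcases hc with hc | hc
  · have h1 : 0 < gram e h := det_pos e hc.2.1
    refine ⟨h1, mean_h_pos e hR hc.2.1 hc.2.2.1 hc.2.2.2, fun hc => ?_⟩
    have h2 := ric_h_pos e hR hc.2.1 hc.2.2.1 hc.2.2.2.1 hc.2.2.2.2
    exact (mul_le_mul_of_nonneg_left h2.2 h1.le).trans h2.1
  · have h1 : 0 < gram e h := det_pos e hc.2.1
    have h2 := ric_h_pos e hR hc.2.1 hc.2.2.1 hc.2.2.2.1 hc.2.2.2.2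
    exact ⟨h1, h2.1, fun _ => (mul_le_mul_of_nonneg_left h2.2 h1.le).trans h2.1⟩

theorem sign : Sign := by
  intro V _ _ e R h b c hR
  have hk := round_pos
  constructor
  · rintro (⟨h1, h2⟩ | h1)
    · obtain ⟨h3, h4, -⟩ := bound V e R h b c hR (Or.inl h1)
      refine le_trans ?_ h4
      exact mul_nonneg h3.le (mul_nonneg hk.le (mul_nonneg (sq_nonneg _) (by linarith)))
    · obtain ⟨h3, -, h4⟩ := bound V e R h b c hR (Or.inr h1)
      refine le_trans ?_ (h4 h1)
      exact mul_nonneg h3.le (mul_nonneg hk.le (pow_nonneg h1.2.2.1 3))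
  · rintro ⟨h0, ⟨h1, h2⟩ | h1⟩
    · obtain ⟨h3, h4, -⟩ := bound V e R h b c hR (Or.inl h1)
      refine lt_of_lt_of_le ?_ h4
      exact mul_pos h3 (mul_pos hk (mul_pos (by positivity) (by linarith)))
    · obtain ⟨h3, -, h4⟩ := bound V e R h b c hR (Or.inr h1)
      refine lt_of_lt_of_le ?_ (h4 h1)
      exact mul_pos h3 (mul_pos hk (pow_pos h0 3))

theorem einstein : EinsteinCase := by
  intro V _ _ e R h b hR hh hb hE hs
  have hsym : ∀ x y : V, R x y x y = R y x y x := by
    intro x y
    have a1 := hR.anti x y y x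
    have a2 := hR.pair y x x y
    have a3 := hR.anti x y x y
    linarith
  have hric : ∀ x : V, ricB R b x = 5 * h x x := by
    intro x
    rw [← hE x x]
    exact Finset.sum_congr rfl fun i _ => hsym _ _
  have hsc : scalB R b = 30 := by
    have h1 : scalB R b = ∑ i, ricB R b (b i) := rfl
    rw [h1]
    simp only [hric]
    have h2 : ∀ i, h (b i) (b i) = 1 := fun i => by
      rw [hb i i, if_pos rfl]
    simp only [h2]
    simp
    norm_num
  have hc : CurvGe R h b (5 / 14) := by
    refine ⟨hh, hb, by norm_num, hs, fun x hx => ?_⟩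
    rw [hric, hx]
    norm_num
  obtain ⟨h1, h2, -⟩ := bound V e R h b (5 / 14) hR (Or.inr hc)
  refine ⟨h1, (le_of_eq ?_).trans h2⟩
  rw [hsc]
  ring

/-- **Curvature bounds relative to any metric.** -/
theorem result : (Bound ∧ Sign ∧ EinsteinCase) ∧ FieldBound ∧ FieldSign := by
  refine ⟨⟨bound, sign, einstein⟩, ?_, ?_⟩
  · intro M _ μ K h b c hc hi hi2
    rw [← integral_const_mul]
    refine integral_mono (hi2.const_mul _) hi fun p => ?_
    have h1 := (bound (K.V p) (K.e p) (K.R p) (h p) (b p) (c p) (K.curv p) (hc p)).2.1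
    calc _ = gram (K.e p) (h p) *
          (roundGB 3 1 * (c p ^ 2 * (scalB (K.R p) (b p) / 10 - 2 * c p))) := by ring
      _ ≤ K.gb p := h1
  · intro M _ μ K hi hp
    have hle : ∀ p, 0 ≤ K.gb p := by
      intro p
      obtain ⟨h, b, c, h1⟩ := hp p
      exact (sign (K.V p) (K.e p) (K.R p) h b c (K.curv p)).1 h1
    have h0 : 0 ≤ ∫ p, K.gb p ∂μ := integral_nonneg hle
    refine ⟨h0, fun hμ => lt_of_le_of_ne h0 fun heq => hμ ?_⟩
    have h1 : K.gb =ᵐ[μ] 0 := (integral_eq_zero_iff_of_nonneg hle hi).1 heq.symm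
    refine measure_mono_null ?_ h1
    rintro p ⟨h, b, c, h2⟩ h5
    have h6 := (sign (K.V p) (K.e p) (K.R p) h b c (K.curv p)).2 h2
    have h7 : K.gb p = 0 := h5
    have h8 : K.gb p = gbc (K.e p) (K.R p) := rfl
    linarith

end Pool.Agent.Results.MP_4a593f_gt.AnyMetricDimSix
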